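import Pool.Agent.K3h26.R5.Stm

/-! Brick VOLP of the project R5 (helper26): a lower bound for the volume of the tile. -/

set_option autoImplicit false

open MeasureTheory Filter Topology Set
open scoped ENNReal

namespace Pool.Agent.K3h64.R5

open Pool.Agent.K3h26.R5

/-- exchange of the two halves of the interval `[-t, t)` -/
noncomputable def swp (t u : ℝ) : ℝ :=
  if u ∈ Ico (-t) 0 then u + t else if u ∈ Ico 0 t then u - t else u

lemma swp_measurable (t : ℝ) : Measurable (swp t) := by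
  unfold swp
  refine Measurable.ite measurableSet_Ico (by fun_prop) ?_
  exact Measurable.ite measurableSet_Ico (by fun_prop) measurable_id

lemma swp_mp (t : ℝ) : MeasurePreserving (swp t) volume volume := by
  refine ⟨swp_measurable t, ?_⟩
  ext s hs
  rw [Measure.map_apply (swp_measurable t) hs]
  have h1 : swp t ⁻¹' s ∩ Ico (-t) 0 = (fun u => u + t) ⁻¹' (s ∩ Ico 0 t) := by
    ext u
    simp only [mem_inter_iff, mem_preimage, swp]
    constructor
    · rintro ⟨h, hu⟩
      rw [if_pos hu] at h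
      exact ⟨h, by linarith [hu.1], by linarith [hu.2]⟩
    · rintro ⟨h, hu⟩
      have hu' : u ∈ Ico (-t) 0 := ⟨by linarith [hu.1], by linarith [hu.2]⟩
      rw [if_pos hu']
      exact ⟨h, hu'⟩
  have h2 : (swp t ⁻¹' s \ Ico (-t) 0) ∩ Ico 0 t = (fun u => u + (-t)) ⁻¹' (s ∩ Ico (-t) 0) := by
    ext u
    simp only [mem_inter_iff, mem_preimage, Set.mem_sdiff, swp]
    constructor
    · rintro ⟨⟨h, hu⟩, hu'⟩
      rw [if_neg hu, if_pos hu'] at h
      exact ⟨by rwa [← sub_eq_add_neg], by linarith [hu'.1], by linarith [hu'.2]⟩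
    · rintro ⟨h, hu⟩
      have hu' : u ∈ Ico 0 t := ⟨by linarith [hu.1], by linarith [hu.2]⟩
      have hu'' : u ∉ Ico (-t) 0 := fun h => by linarith [h.2, hu'.1]
      rw [if_neg hu'', if_pos hu']
      exact ⟨⟨by rwa [sub_eq_add_neg], hu''⟩, hu'⟩
  have h3 : (swp t ⁻¹' s \ Ico (-t) 0) \ Ico 0 t = (s \ Ico (-t) 0) \ Ico 0 t := by
    ext u
    simp only [mem_preimage, Set.mem_sdiff, swp]
    constructor
    · rintro ⟨⟨h, hu⟩, hu'⟩
      rw [if_neg hu, if_neg hu'] at h
      exact ⟨⟨h, hu⟩, hu'⟩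
    · rintro ⟨⟨h, hu⟩, hu'⟩
      rw [if_neg hu, if_neg hu']
      exact ⟨⟨h, hu⟩, hu'⟩
  have h4 : (s \ Ico (-t) 0) ∩ Ico 0 t = s ∩ Ico 0 t := by
    ext u
    simp only [mem_inter_iff, Set.mem_sdiff]
    constructor
    · rintro ⟨⟨h, _⟩, hu⟩
      exact ⟨h, hu⟩
    · rintro ⟨h, hu⟩
      exact ⟨⟨h, fun h' => by linarith [h'.2, hu.1]⟩, hu⟩
  rw [← measure_inter_add_sdiff (swp t ⁻¹' s) (measurableSet_Ico (a := -t) (b := 0)),
    ← measure_inter_add_sdiff (swp t ⁻¹' s \ Ico (-t) 0) (measurableSet_Ico (a := (0:ℝ)) (b := t)),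
    h1, h2, h3, measure_preimage_add_right, measure_preimage_add_right,
    ← measure_inter_add_sdiff s (measurableSet_Ico (a := -t) (b := 0)),
    ← measure_inter_add_sdiff (s \ Ico (-t) 0) (measurableSet_Ico (a := (0:ℝ)) (b := t)), h4]
  ring

lemma swp_abs (t u : ℝ) (hu : u ∈ Ico (-t) t) : |swp t u| = t - |u| ∧ swp t u ∈ Ico (-t) t := by
  unfold swp
  by_cases h : u < 0
  · have h1 : u ∈ Ico (-t) 0 := ⟨hu.1, h⟩
    rw [if_pos h1, abs_of_neg h, abs_of_nonneg (by linarith [hu.1])]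
    exact ⟨by ring, by linarith [hu.1], by linarith⟩
  · push Not at h
    have h1 : u ∉ Ico (-t) 0 := fun h' => by linarith [h'.2]
    have h2 : u ∈ Ico 0 t := ⟨h, hu.2⟩
    rw [if_neg h1, if_pos h2, abs_of_nonneg h, abs_of_neg (by linarith [hu.2])]
    exact ⟨by ring, by linarith, by linarith [hu.2]⟩

/-- the half sides of the box -/
noncomputable def sd (t : ℝ) (i : Fin 5) : ℝ := if i.val < 3 then t else t / 2

/-- the box -/
noncomputable def bx (t : ℝ) : Set (Fin 5 → ℝ) := Set.pi univ fun i => Ico (-(sd t i)) (sd t i)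

lemma vol_bx (t : ℝ) (ht : 0 < t) : volume (bx t) = ENNReal.ofReal (8 * t ^ 5) := by
  rw [bx, Real.volume_pi_Ico, ← ENNReal.ofReal_prod_of_nonneg]
  · congr 1
    simp only [sd, Fin.prod_univ_five]
    norm_num
    ring
  · intro i _
    simp only [sd]
    split_ifs <;> linarith

/-- the map -/
noncomputable def Fm (t : ℝ) (x : Fin 5 → ℝ) : Fin 5 → ℝ :=
  fun i => (if i.val < 3 then swp t else id) (x i)

lemma Fm_mp (t : ℝ) : MeasurePreserving (Fm t) volume volume := by
  refine volume_preserving_pi (f := fun i : Fin 5 => if i.val < 3 then swp t else id) ?_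
  intro i
  split_ifs
  · exact swp_mp t
  · exact MeasurePreserving.id volume

/-- the closed half -/
def Lo (t : ℝ) : Set (Fin 5 → ℝ) := bx t ∩ {x | n1 x ≤ 3 / 2 * t}

lemma n1_cont : Continuous n1 := by
  unfold n1
  fun_prop

lemma Lo_meas (t : ℝ) : MeasurableSet (Lo t) := by
  refine MeasurableSet.inter ?_ (measurableSet_le n1_cont.measurable measurable_const)
  exact MeasurableSet.univ_pi fun i => measurableSet_Ico

lemma Lo_vol (t : ℝ) (ht : 0 < t) : ENNReal.ofReal (4 * t ^ 5) ≤ volume (Lo t) := by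
  have h1 : bx t \ Lo t ⊆ Fm t ⁻¹' Lo t := by
    rintro x ⟨hx, hx'⟩
    have h3 : 3 / 2 * t < n1 x := by
      by_contra h
      push Not at h
      exact hx' ⟨hx, h⟩
    have hx2 : ∀ i : Fin 5, x i ∈ Ico (-(sd t i)) (sd t i) := fun i => hx i (mem_univ i)
    have hs : ∀ i : Fin 5, i.val < 3 → |Fm t x i| = t - |x i| ∧ Fm t x i ∈ Ico (-t) t := by
      intro i hi
      have := hx2 i
      rw [sd, if_pos hi] at this
      have h4 := swp_abs t (x i) this
      simp only [Fm, if_pos hi]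
      exact h4
    refine ⟨?_, ?_⟩
    · intro i _
      by_cases hi : i.val < 3
      · simp only [sd, if_pos hi]
        exact (hs i hi).2
      · have h5 := hx2 i
        simp only [Fm, if_neg hi, id]
        exact h5
    · show n1 (Fm t x) ≤ 3 / 2 * t
      rw [n1] at h3 ⊢
      rw [(hs 0 (by decide)).1, (hs 1 (by decide)).1, (hs 2 (by decide)).1]
      linarith
  have h2 : volume (bx t \ Lo t) ≤ volume (Lo t) := by
    calc volume (bx t \ Lo t) ≤ volume (Fm t ⁻¹' Lo t) := measure_mono h1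
      _ = volume (Lo t) := (Fm_mp t).measure_preimage (Lo_meas t).nullMeasurableSet
  have h3 : volume (bx t) ≤ 2 * volume (Lo t) := by
    calc volume (bx t) ≤ volume (Lo t ∪ (bx t \ Lo t)) := measure_mono fun x hx => by
          by_cases h : x ∈ Lo t
          · exact Or.inl h
          · exact Or.inr ⟨hx, h⟩
      _ ≤ volume (Lo t) + volume (bx t \ Lo t) := measure_union_le _ _
      _ ≤ volume (Lo t) + volume (Lo t) := by gcongr
      _ = 2 * volume (Lo t) := (two_mul _).symm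
  rw [vol_bx t ht] at h3
  have h4 : ENNReal.ofReal (8 * t ^ 5) = 2 * ENNReal.ofReal (4 * t ^ 5) := by
    rw [show (2 : ℝ≥0∞) = ENNReal.ofReal 2 by simp, ← ENNReal.ofReal_mul (by norm_num)]
    congr 1
    ring
  rw [h4] at h3
  exact (ENNReal.mul_le_mul_iff_right (by norm_num) (by norm_num)).mp h3

lemma Lo_sub {t t' : ℝ} (h : t < t') : Lo t ⊆ Pt t' := by
  rintro x ⟨hx, hn⟩
  have hx2 : ∀ i : Fin 5, x i ∈ Ico (-(sd t i)) (sd t i) := fun i => hx i (mem_univ i)
  have h0 := hx2 0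
  have h1 := hx2 1
  have h2 := hx2 2
  have h3 := hx2 3
  have h4 := hx2 4
  simp only [sd, mem_Ico] at h0 h1 h2 h3 h4
  norm_num at h0 h1 h2 h3 h4
  have hn' : n1 x ≤ 3 / 2 * t := hn
  refine ⟨by linarith, ?_, ?_⟩
  · rw [ni]
    refine max_lt ?_ (max_lt ?_ ?_) <;> rw [abs_lt] <;> constructor <;> linarith
  · rw [my]
    refine max_lt ?_ ?_ <;> rw [abs_lt] <;> constructor <;> linarith

theorem t_VOLP : S_VOLP := by
  intro t ht
  have hc : Tendsto (fun u : ℝ => ENNReal.ofReal (4 * u ^ 5)) (𝓝[<] t)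
      (𝓝 (ENNReal.ofReal (4 * t ^ 5))) := by
    apply Tendsto.mono_left _ nhdsWithin_le_nhds
    have : Continuous fun u : ℝ => ENNReal.ofReal (4 * u ^ 5) :=
      ENNReal.continuous_ofReal.comp (by fun_prop)
    exact this.tendsto t
  refine le_of_tendsto hc ?_
  have hev : ∀ᶠ u in 𝓝[<] t, u ∈ Ioo 0 t := Ioo_mem_nhdsLT ht
  filter_upwards [hev] with u hu
  exact (Lo_vol u hu.1).trans (measure_mono (Lo_sub hu.2))

end Pool.Agent.K3h64.R5
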